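import Pool.Agent.Work.MP_9a3a53_an.Norm

/-!
# Block diagonal embeddings and averages
-/

set_option autoImplicit false
set_option linter.unusedSectionVars false
open Finset Module InnerProductSpace
open scoped ENNReal

namespace Pool.Schatten

variable {N m l : ℕ}

/-- the inclusion of the block `a` -/
def blk (e : Fin m × Fin l → Fin N) (a : Fin m) : Matrix (Fin N) (Fin l) ℝ :=
  fun i s => if e (a, s) = i then 1 else 0

lemma blk_mul {e : Fin m × Fin l → Fin N} (he : Function.Injective e) (a b : Fin m) :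
    (blk e a).transpose * blk e b = if a = b then 1 else 0 := by
  ext s s'
  rw [Matrix.mul_apply]
  simp only [Matrix.transpose_apply, blk, mul_ite, mul_one, mul_zero]
  rw [Finset.sum_ite_eq]
  simp only [mem_univ, if_true]
  by_cases h : a = b
  · subst h
    rw [if_pos rfl, Matrix.one_apply]
    by_cases h2 : s = s'
    · subst h2
      simp
    · rw [if_neg h2, if_neg]
      intro h3
      exact h2 (Prod.mk.inj (he h3)).2
  · rw [if_neg h, if_neg]
    · rfl
    · intro h3
      exact h (Prod.mk.inj (he h3)).1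

/-- the inclusion of the block `a` as a linear map -/
noncomputable def J (e : Fin m × Fin l → Fin N) (a : Fin m) :
    EuclideanSpace ℝ (Fin l) →ₗ[ℝ] EuclideanSpace ℝ (Fin N) := Matrix.toEuclideanLin (blk e a)

lemma inner_toEuclideanLin {r s : ℕ} (M : Matrix (Fin r) (Fin s) ℝ) (x : EuclideanSpace ℝ (Fin s))
    (y : EuclideanSpace ℝ (Fin r)) :
    inner ℝ (Matrix.toEuclideanLin M x) y = inner ℝ x (Matrix.toEuclideanLin M.transpose y) := by
  have h1 : M.transpose = M.conjTranspose := (Matrix.conjTranspose_eq_transpose_of_trivial M).symm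
  rw [h1, Matrix.toEuclideanLin_conjTranspose_eq_adjoint, LinearMap.adjoint_inner_right]

lemma toEuclideanLin_mul {r s t : ℕ} (A : Matrix (Fin r) (Fin s) ℝ) (B : Matrix (Fin s) (Fin t) ℝ)
    (x : EuclideanSpace ℝ (Fin t)) :
    Matrix.toEuclideanLin (A * B) x = Matrix.toEuclideanLin A (Matrix.toEuclideanLin B x) := by
  rw [Matrix.toLpLin_mul_same]
  rfl

lemma inner_J {e : Fin m × Fin l → Fin N} (he : Function.Injective e) (a b : Fin m)
    (x y : EuclideanSpace ℝ (Fin l)) :
    inner ℝ (J e a x) (J e b y) = if a = b then inner ℝ x y else 0 := by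
  unfold J
  rw [inner_toEuclideanLin, ← toEuclideanLin_mul, blk_mul he]
  split_ifs with h
  · rw [Matrix.toLpLin_one]
    rfl
  · rw [map_zero, LinearMap.zero_apply, inner_zero_right]

lemma orthonormal_J {e : Fin m × Fin l → Fin N} (he : Function.Injective e) {κ : Type*}
    {u : κ → EuclideanSpace ℝ (Fin l)} (hu : Orthonormal ℝ u) :
    Orthonormal ℝ (fun x : Fin m × κ => J e x.1 (u x.2)) := by
  classical
  rw [orthonormal_iff_ite] at hu ⊢
  rintro ⟨a, k⟩ ⟨b, k'⟩
  rw [inner_J he]
  simp only [Prod.mk.injEq]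
  by_cases h : a = b
  · rw [if_pos h, hu]
    simp [h]
  · simp [h]

/-- the block diagonal embedding -/
noncomputable def up (e : Fin m × Fin l → Fin N) :
    Matrix (Fin l) (Fin l) ℝ →ₗ[ℝ] Matrix (Fin N) (Fin N) ℝ where
  toFun y := ∑ a, blk e a * y * (blk e a).transpose
  map_add' y z := by simp only [Matrix.mul_add, Matrix.add_mul, sum_add_distrib]
  map_smul' c y := by simp only [Matrix.mul_smul, Matrix.smul_mul, smul_sum, RingHom.id_apply]

/-- the average of the blocks -/
noncomputable def down (e : Fin m × Fin l → Fin N) :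
    Matrix (Fin N) (Fin N) ℝ →ₗ[ℝ] Matrix (Fin l) (Fin l) ℝ where
  toFun A := (m : ℝ)⁻¹ • ∑ a, (blk e a).transpose * A * blk e a
  map_add' y z := by simp only [Matrix.mul_add, Matrix.add_mul, sum_add_distrib, smul_add]
  map_smul' c y := by
    simp only [Matrix.mul_smul, Matrix.smul_mul, ← smul_sum, RingHom.id_apply]
    rw [smul_comm]

lemma up_apply (e : Fin m × Fin l → Fin N) (y : Matrix (Fin l) (Fin l) ℝ) :
    up e y = ∑ a, blk e a * y * (blk e a).transpose := rfl

lemma down_apply (e : Fin m × Fin l → Fin N) (A : Matrix (Fin N) (Fin N) ℝ) :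
    down e A = (m : ℝ)⁻¹ • ∑ a, (blk e a).transpose * A * blk e a := rfl

lemma down_up {e : Fin m × Fin l → Fin N} (he : Function.Injective e) (hm : 0 < m)
    (y : Matrix (Fin l) (Fin l) ℝ) : down e (up e y) = y := by
  rw [down_apply, up_apply]
  have h1 : ∀ a : Fin m, (blk e a).transpose * (∑ b, blk e b * y * (blk e b).transpose) * blk e a =
      y := by
    intro a
    rw [Matrix.mul_sum, Matrix.sum_mul, sum_eq_single a]
    · have h2 : (blk e a).transpose * (blk e a * y * (blk e a).transpose) * blk e a =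
        ((blk e a).transpose * blk e a) * y * ((blk e a).transpose * blk e a) := by
        simp only [Matrix.mul_assoc]
      rw [h2, blk_mul he, if_pos rfl, Matrix.one_mul, Matrix.mul_one]
    · intro b _ hb
      have h2 : (blk e a).transpose * (blk e b * y * (blk e b).transpose) * blk e a =
        ((blk e a).transpose * blk e b) * y * ((blk e b).transpose * blk e a) := by
        simp only [Matrix.mul_assoc]
      rw [h2, blk_mul he, if_neg (Ne.symm hb), Matrix.zero_mul, Matrix.zero_mul]
    · intro h
      exact (h (mem_univ _)).elim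
  rw [sum_congr rfl fun a _ => h1 a, sum_const, card_univ, Fintype.card_fin, ← Nat.cast_smul_eq_nsmul ℝ,
    smul_smul, inv_mul_cancel₀ (by positivity), one_smul]

/-- the singular system of a block diagonal matrix -/
lemma up_expansion {e : Fin m × Fin l → Fin N} (y : Matrix (Fin l) (Fin l) ℝ)
    {u v : OrthonormalBasis (Fin l) ℝ (EuclideanSpace ℝ (Fin l))}
    (h : ∀ j : Fin l, Matrix.toEuclideanLin y (v j) =
      (Matrix.toEuclideanLin y).singularValues j • u j) (x : EuclideanSpace ℝ (Fin N)) :
    Matrix.toEuclideanLin (up e y) x = ∑ k : Fin m × Fin l,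
      ((Matrix.toEuclideanLin y).singularValues k.2 * inner ℝ (J e k.1 (v k.2)) x) •
        J e k.1 (u k.2) := by
  rw [up_apply, map_sum, LinearMap.sum_apply, Fintype.sum_prod_type]
  apply sum_congr rfl
  intro a _
  rw [toEuclideanLin_mul, toEuclideanLin_mul, svd_apply h, map_sum]
  apply sum_congr rfl
  intro k _
  rw [map_smul]
  congr 2
  unfold J
  rw [inner_toEuclideanLin]

/-- the norm of the embedding -/
theorem sNorm_up_le {e : Fin m × Fin l → Fin N} (he : Function.Injective e) (hm : 0 < m)
    {q : ℝ≥0∞} (hq : 1 ≤ q) (y : Matrix (Fin l) (Fin l) ℝ) :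
    sNorm q (up e y) ≤ (m : ℝ) ^ q.toReal⁻¹ * sNorm q y := by
  obtain ⟨u, v, h⟩ := exists_svd (N := l) (by simp) (Matrix.toEuclideanLin y)
  refine (sNorm_le_of_expansion hq (up e y) (orthonormal_J he u.orthonormal)
    (orthonormal_J he v.orthonormal)
    (τ := fun k => (Matrix.toEuclideanLin y).singularValues k.2) (fun k => sv_nonneg y k.2)
    (up_expansion y h)).trans ?_
  have hm' : (0 : ℝ) < m := by exact_mod_cast hm
  rcases eq_or_ne q ∞ with rfl | hq'
  · rw [norm_toLp_top fun k : Fin m × Fin l => sv_nonneg y k.2]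
    simp only [ENNReal.toReal_top, inv_zero, Real.rpow_zero, one_mul]
    exact Real.iSup_le (fun k => sv_le_sNorm hq y k.2) (sNorm_nonneg hq y)
  · have h1 := toReal_pos hq hq'
    unfold sNorm
    rw [norm_toLp_fin (by linarith) fun k : Fin m × Fin l => sv_nonneg y k.2,
      norm_toLp_fin (by linarith) (sv_nonneg y),
      Fintype.sum_prod_type]
    simp only [sum_const, card_univ, Fintype.card_fin, nsmul_eq_mul]
    rw [Real.mul_rpow hm'.le (sum_nonneg fun k _ => Real.rpow_nonneg (sv_nonneg y k) _), one_div]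

/-- the norm of the average -/
theorem sNorm_down_le {e : Fin m × Fin l → Fin N} (he : Function.Injective e) (hm : 0 < m)
    {p : ℝ≥0∞} (hp : 1 ≤ p) (A : Matrix (Fin N) (Fin N) ℝ) :
    sNorm p (down e A) ≤ (m : ℝ) ^ (-p.toReal⁻¹) * sNorm p A := by
  obtain ⟨u, v, h⟩ := exists_svd (N := l) (by simp) (Matrix.toEuclideanLin (down e A))
  have hm' : (0 : ℝ) < m := by exact_mod_cast hm
  have h1 : ∀ k : Fin l, (Matrix.toEuclideanLin (down e A)).singularValues k =
      ∑ a : Fin m, (m : ℝ)⁻¹ * inner ℝ (J e a (u k)) (Matrix.toEuclideanLin A (J e a (v k))) := by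
    intro k
    rw [← svd_inner h k, down_apply, map_smul, map_sum, LinearMap.smul_apply, LinearMap.sum_apply,
      inner_smul_right, inner_sum, mul_sum]
    apply sum_congr rfl
    intro a _
    rw [toEuclideanLin_mul, toEuclideanLin_mul]
    unfold J
    rw [inner_toEuclideanLin]
  have hw : ∑ _a : Fin m, (m : ℝ)⁻¹ = 1 := by
    rw [sum_const, card_univ, Fintype.card_fin, nsmul_eq_mul, mul_inv_cancel₀ hm'.ne']
  have h2 : ∀ k : Fin l, (Matrix.toEuclideanLin (down e A)).singularValues k ≤
      ∑ a : Fin m, (m : ℝ)⁻¹ * |inner ℝ (J e a (u k)) (Matrix.toEuclideanLin A (J e a (v k)))| := by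
    intro k
    rw [h1 k]
    apply sum_le_sum
    intro a _
    exact mul_le_mul_of_nonneg_left (le_abs_self _) (by positivity)
  rcases eq_or_ne p ∞ with rfl | hp'
  · simp only [ENNReal.toReal_top, inv_zero, neg_zero, Real.rpow_zero, one_mul]
    unfold sNorm
    rw [norm_toLp_top (sv_nonneg (down e A))]
    refine Real.iSup_le (fun k => (h2 k).trans ?_) (sNorm_nonneg hp A)
    have h3 : ∀ a : Fin m, (m : ℝ)⁻¹ *
        |inner ℝ (J e a (u k)) (Matrix.toEuclideanLin A (J e a (v k)))| ≤
        (m : ℝ)⁻¹ * sNorm ∞ A := by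
      intro a
      apply mul_le_mul_of_nonneg_left _ (by positivity)
      apply inner_le_sNorm hp A
      · exact ((orthonormal_J he u.orthonormal).norm_eq_one (a, k)).le
      · exact ((orthonormal_J he v.orthonormal).norm_eq_one (a, k)).le
    refine (sum_le_sum fun a _ => h3 a).trans ?_
    rw [← sum_mul, hw, one_mul]
    exact le_refl _
  · have h3 := toReal_pos hp hp'
    have h4 : ∑ k : Fin l, (Matrix.toEuclideanLin (down e A)).singularValues k ^ p.toReal ≤
        (m : ℝ)⁻¹ * sNorm p A ^ p.toReal := by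
      have h5 := sum_inner_le_sNorm hp hp' A (orthonormal_J he u.orthonormal)
        (orthonormal_J he v.orthonormal)
      rw [Fintype.sum_prod_type, sum_comm] at h5
      refine le_trans ?_ (mul_le_mul_of_nonneg_left h5 (by positivity))
      rw [mul_sum]
      apply sum_le_sum
      intro k _
      refine (Real.rpow_le_rpow (sv_nonneg _ k) (h2 k) (by linarith)).trans ?_
      have h6 := Real.rpow_arith_mean_le_arith_mean_rpow univ (fun _ : Fin m => (m : ℝ)⁻¹)
        (fun a => |inner ℝ (J e a (u k)) (Matrix.toEuclideanLin A (J e a (v k)))|)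
        (fun _ _ => by positivity) hw (fun _ _ => abs_nonneg _) h3
      rw [mul_sum]
      exact h6
    unfold sNorm
    rw [norm_toLp_fin (by linarith) (sv_nonneg (down e A))]
    refine (Real.rpow_le_rpow (sum_nonneg fun k _ => Real.rpow_nonneg (sv_nonneg _ k) _) h4
      (by positivity)).trans (le_of_eq ?_)
    rw [Real.mul_rpow (by positivity) (Real.rpow_nonneg (sNorm_nonneg hp A) _),
      ← Real.rpow_mul (sNorm_nonneg hp A), mul_one_div_cancel (by linarith), Real.rpow_one,
      Real.rpow_neg hm'.le, one_div, Real.inv_rpow hm'.le]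
    rfl

end Pool.Schatten
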