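import Pool.Agent.Work.MP_9a3a53_an.Norm

/-!
# The lower bound for the Gelfand numbers
-/

set_option autoImplicit false
set_option linter.unusedSectionVars false
open Finset Module InnerProductSpace
open scoped ENNReal

namespace Pool.Schatten

section vec

variable {ι : Type*} [Fintype ι]

/-- interpolation between the exponents `2` and `q` -/
lemma norm_toLp_interp {p q : ℝ≥0∞} (hp : 2 ≤ p) (hpq : p ≤ q) (hq : 2 < q) {s : ι → ℝ}
    (hs : ∀ j, 0 ≤ s j) (hs0 : ∃ j, 0 < s j) :
    ‖(WithLp.toLp p s : PiLp p (fun _ : ι => ℝ))‖ ≤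
      ‖(WithLp.toLp 2 s : PiLp 2 (fun _ : ι => ℝ))‖ ^
          ((p.toReal⁻¹ - q.toReal⁻¹) / (1 / 2 - q.toReal⁻¹)) *
        ‖(WithLp.toLp q s : PiLp q (fun _ : ι => ℝ))‖ ^
          (1 - (p.toReal⁻¹ - q.toReal⁻¹) / (1 / 2 - q.toReal⁻¹)) := by
  obtain ⟨j0, hj0⟩ := hs0
  have h12 : (1 : ℝ≥0∞) ≤ 2 := by norm_num
  have hp1 : 1 ≤ p := h12.trans hp
  have hq1 : 1 ≤ q := hp1.trans hpq
  set S2 := ‖(WithLp.toLp 2 s : PiLp 2 (fun _ : ι => ℝ))‖ with hS2
  set Sq := ‖(WithLp.toLp q s : PiLp q (fun _ : ι => ℝ))‖ with hSq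
  have h2pos : 0 < S2 := lt_of_lt_of_le hj0 (le_norm_toLp h12 hs j0)
  have hqpos : 0 < Sq := lt_of_lt_of_le hj0 (le_norm_toLp hq1 hs j0)
  have e2 : ∑ j, s j ^ (2 : ℝ) = S2 ^ (2 : ℝ) := by
    have := sum_rpow_eq (p := 2) h12 (by norm_num) hs
    simpa using this
  rcases eq_or_ne p ∞ with rfl | hp'
  · have hq' : q = ∞ := top_le_iff.1 hpq
    subst hq'
    simp only [ENNReal.toReal_top, inv_zero, sub_self, zero_div, Real.rpow_zero, one_mul, sub_zero,
      Real.rpow_one]
    exact le_refl _
  · have hpr : 2 ≤ p.toReal := by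
      have := ENNReal.toReal_mono hp' hp
      simpa using this
    have hpp : 0 < p.toReal := by linarith
    rcases eq_or_ne q ∞ with rfl | hq'
    · -- `q = ∞`
      have h1 : ∑ j, s j ^ p.toReal ≤ S2 ^ (2 : ℝ) * Sq ^ (p.toReal - 2) := by
        rw [← e2, sum_mul]
        apply sum_le_sum
        intro j _
        rcases eq_or_lt_of_le (hs j) with h4 | h4
        · rw [← h4, Real.zero_rpow (by linarith), Real.zero_rpow (by norm_num), zero_mul]
        · have e1 : s j ^ p.toReal = s j ^ (2 : ℝ) * s j ^ (p.toReal - 2) := by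
            rw [← Real.rpow_add h4]
            congr 1
            ring
          rw [e1]
          exact mul_le_mul_of_nonneg_left (Real.rpow_le_rpow (hs j) (le_norm_toLp hq1 hs j)
            (by linarith)) (Real.rpow_nonneg (hs j) _)
      rw [norm_toLp_fin hpp hs]
      refine (Real.rpow_le_rpow (sum_nonneg fun j _ => Real.rpow_nonneg (hs j) _) h1
        (by positivity)).trans (le_of_eq ?_)
      rw [Real.mul_rpow (by positivity) (by positivity), ← Real.rpow_mul h2pos.le,
        ← Real.rpow_mul hqpos.le]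
      simp only [ENNReal.toReal_top, inv_zero, sub_zero]
      congr 2
      · ring
      · field_simp
    · have hqr : 2 < q.toReal := by
        have h1 : (2 : ℝ≥0∞).toReal < q.toReal :=
          (ENNReal.toReal_lt_toReal (by norm_num) hq').2 hq
        simpa using h1
      have hqp : 0 < q.toReal := by linarith
      have hpqr : p.toReal ≤ q.toReal := ENNReal.toReal_mono hq' hpq
      have eq1 : ∑ j, s j ^ q.toReal = Sq ^ q.toReal := sum_rpow_eq hq1 hq' hs
      set a : ℝ := (q.toReal - p.toReal) / (q.toReal - 2) with ha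
      set b : ℝ := (p.toReal - 2) / (q.toReal - 2) with hb
      have hd : 0 < q.toReal - 2 := by linarith
      have ha0 : 0 ≤ a := div_nonneg (by linarith) hd.le
      have hb0 : 0 ≤ b := div_nonneg (by linarith) hd.le
      have hab : a + b = 1 := by
        rw [ha, hb, ← add_div, div_eq_one_iff_eq hd.ne']
        ring
      have hab2 : 2 * a + q.toReal * b = p.toReal := by
        rw [ha, hb]
        field_simp
        ring
      have h1 : ∑ j, s j ^ p.toReal ≤ (S2 ^ (2 : ℝ)) ^ a * (Sq ^ q.toReal) ^ b := by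
        have hA : 0 < S2 ^ (2 : ℝ) := Real.rpow_pos_of_pos h2pos _
        have hB : 0 < Sq ^ q.toReal := Real.rpow_pos_of_pos hqpos _
        have h3 : ∀ j, s j ^ p.toReal ≤ (S2 ^ (2 : ℝ)) ^ a * (Sq ^ q.toReal) ^ b *
            (a * (s j ^ (2 : ℝ) / S2 ^ (2 : ℝ)) + b * (s j ^ q.toReal / Sq ^ q.toReal)) := by
          intro j
          have h4 := Real.geom_mean_le_arith_mean2_weighted ha0 hb0
            (p₁ := s j ^ (2 : ℝ) / S2 ^ (2 : ℝ)) (p₂ := s j ^ q.toReal / Sq ^ q.toReal)
            (div_nonneg (Real.rpow_nonneg (hs j) _) hA.le)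
            (div_nonneg (Real.rpow_nonneg (hs j) _) hB.le) hab
          have h5 : s j ^ p.toReal = (S2 ^ (2 : ℝ)) ^ a * (Sq ^ q.toReal) ^ b *
              ((s j ^ (2 : ℝ) / S2 ^ (2 : ℝ)) ^ a * (s j ^ q.toReal / Sq ^ q.toReal) ^ b) := by
            rw [Real.div_rpow (Real.rpow_nonneg (hs j) _) hA.le,
              Real.div_rpow (Real.rpow_nonneg (hs j) _) hB.le]
            have e5 : s j ^ p.toReal = (s j ^ (2 : ℝ)) ^ a * (s j ^ q.toReal) ^ b := by
              rw [← Real.rpow_mul (hs j), ← Real.rpow_mul (hs j)]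
              rcases eq_or_lt_of_le (hs j) with h6 | h6
              · rw [← h6, Real.zero_rpow (by linarith)]
                rcases eq_or_ne a 0 with h7 | h7
                · have h8 : b = 1 := by linarith
                  rw [h7, h8, mul_one, Real.zero_rpow (x := q.toReal) (by linarith), mul_zero]
                · rw [Real.zero_rpow (mul_ne_zero two_ne_zero h7), zero_mul]
              · rw [← Real.rpow_add h6, hab2]
            rw [e5]
            have hA' : (S2 ^ (2 : ℝ)) ^ a ≠ 0 := (Real.rpow_pos_of_pos hA _).ne'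
            have hB' : (Sq ^ q.toReal) ^ b ≠ 0 := (Real.rpow_pos_of_pos hB _).ne'
            field_simp
          rw [h5]
          exact mul_le_mul_of_nonneg_left h4 (by positivity)
        refine (sum_le_sum fun j _ => h3 j).trans (le_of_eq ?_)
        rw [← mul_sum, sum_add_distrib, ← mul_sum, ← mul_sum, ← sum_div, ← sum_div, e2, eq1,
          div_self hA.ne', div_self hB.ne', mul_one, mul_one, hab, mul_one]
      rw [norm_toLp_fin hpp hs]
      refine (Real.rpow_le_rpow (sum_nonneg fun j _ => Real.rpow_nonneg (hs j) _) h1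
        (by positivity)).trans (le_of_eq ?_)
      rw [Real.mul_rpow (by positivity) (by positivity), ← Real.rpow_mul (by positivity),
        ← Real.rpow_mul h2pos.le, ← Real.rpow_mul (by positivity), ← Real.rpow_mul hqpos.le]
      have h6 : (1 / 2 - q.toReal⁻¹) ≠ 0 := by
        have : q.toReal⁻¹ < 1 / 2 := by
          rw [inv_eq_one_div]
          exact one_div_lt_one_div_of_lt (by norm_num) hqr
        linarith
      congr 2
      · rw [ha]
        field_simp
      · rw [hb]
        field_simp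
        ring

end vec

section mat

variable {N : ℕ}

/-- the entries -/
lemma abs_entry_le {p : ℝ≥0∞} (hp : 1 ≤ p) (A : Matrix (Fin N) (Fin N) ℝ) (i j : Fin N) :
    |A i j| ≤ sNorm p A := by
  have h1 := inner_le_sNorm hp A (x := EuclideanSpace.single i 1)
    (y := EuclideanSpace.single j 1) (by simp) (by simp)
  have h2 : inner ℝ (EuclideanSpace.single i (1 : ℝ))
      (Matrix.toEuclideanLin A (EuclideanSpace.single j 1)) = A i j := by
    rw [EuclideanSpace.inner_single_left]
    simp [Matrix.toLpLin_apply]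
  rwa [h2] at h1

/-- the Hilbert-Schmidt norm -/
lemma sNorm_two_sq (A : Matrix (Fin N) (Fin N) ℝ) : sNorm 2 A ^ 2 = ∑ i, ∑ j, A i j ^ 2 := by
  obtain ⟨u, v, h⟩ := exists_svd (N := N) (by simp) (Matrix.toEuclideanLin A)
  have h1 : sNorm 2 A ^ 2 = ∑ j : Fin N, (Matrix.toEuclideanLin A).singularValues j ^ 2 := by
    have := sum_rpow_eq (p := 2) (by norm_num) (by norm_num) (sv_nonneg A)
    simp only [ENNReal.toReal_ofNat, Real.rpow_ofNat] at this
    exact this.symm
  have h2 : ∀ j : Fin N, (Matrix.toEuclideanLin A).singularValues j ^ 2 =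
      ∑ i, inner ℝ (WithLp.toLp 2 (A i) : EuclideanSpace ℝ (Fin N)) (v j) ^ 2 := by
    intro j
    have h3 : (Matrix.toEuclideanLin A).singularValues j ^ 2 =
        ‖Matrix.toEuclideanLin A (v j)‖ ^ 2 := by
      rw [h j, norm_smul, u.norm_eq_one, mul_one, Real.norm_eq_abs, sq_abs]
    rw [h3, EuclideanSpace.norm_sq_eq]
    apply sum_congr rfl
    intro i _
    rw [Real.norm_eq_abs, sq_abs]
    congr 1
    simp [Matrix.toLpLin_apply, Matrix.mulVec, dotProduct, PiLp.inner_apply, mul_comm]
  rw [h1, sum_congr rfl fun j _ => h2 j, sum_comm]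
  apply sum_congr rfl
  intro i _
  rw [v.sum_sq_inner_left, EuclideanSpace.norm_sq_eq]
  apply sum_congr rfl
  intro j _
  rw [Real.norm_eq_abs, sq_abs]

end mat

end Pool.Schatten
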