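import Pool.Agent.Work.MP_9a3a53_an.SVD

/-!
# Schatten norms of real matrices, approximation numbers and Gelfand numbers
-/

set_option autoImplicit false
set_option linter.unusedSectionVars false
open Finset Module InnerProductSpace
open scoped ENNReal

namespace Pool.Schatten

/-- The Schatten norm `S_p^N` of a real `N × N` matrix, `0 < p ≤ ∞`: the `ℓ_p` norm of its singular
values. -/
noncomputable def sNorm {N : ℕ} (p : ℝ≥0∞) (A : Matrix (Fin N) (Fin N) ℝ) : ℝ :=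
  ‖(WithLp.toLp p (fun j : Fin N => (Matrix.toEuclideanLin A).singularValues j) :
    PiLp p (fun _ : Fin N => ℝ))‖

/-- The `n`-th approximation number of the identity map `S_p^N → S_q^N`: the infimum of the norms
`‖ι - T‖` over the linear maps `T` of rank `< n`. -/
noncomputable def approxNumber (p q : ℝ≥0∞) (N n : ℕ) : ℝ :=
  sInf {r : ℝ | 0 ≤ r ∧ ∃ T : Matrix (Fin N) (Fin N) ℝ →ₗ[ℝ] Matrix (Fin N) (Fin N) ℝ,
    finrank ℝ (LinearMap.range T) < n ∧ ∀ A, sNorm q (A - T A) ≤ r * sNorm p A}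

/-- The `n`-th Gelfand number of the identity map `S_p^N → S_q^N`: the infimum of the norms of its
restrictions to the subspaces of codimension `< n`. -/
noncomputable def gelfandNumber (p q : ℝ≥0∞) (N n : ℕ) : ℝ :=
  sInf {r : ℝ | 0 ≤ r ∧ ∃ F : Submodule ℝ (Matrix (Fin N) (Fin N) ℝ),
    N ^ 2 < finrank ℝ F + n ∧ ∀ A ∈ F, sNorm q A ≤ r * sNorm p A}

section vec

variable {ι : Type*} [Fintype ι]

lemma norm_toLp_fin {p : ℝ≥0∞} (hp : 0 < p.toReal) {s : ι → ℝ} (hs : ∀ j, 0 ≤ s j) :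
    ‖(WithLp.toLp p s : PiLp p (fun _ : ι => ℝ))‖ = (∑ j, s j ^ p.toReal) ^ (1 / p.toReal) := by
  rw [PiLp.norm_eq_sum hp]
  congr 1
  apply sum_congr rfl
  intro j _
  rw [Real.norm_eq_abs, abs_of_nonneg (hs j)]

lemma norm_toLp_top {s : ι → ℝ} (hs : ∀ j, 0 ≤ s j) :
    ‖(WithLp.toLp ∞ s : PiLp ∞ (fun _ : ι => ℝ))‖ = ⨆ j, s j := by
  rw [PiLp.norm_eq_ciSup]
  congr 1
  ext j
  rw [Real.norm_eq_abs, abs_of_nonneg (hs j)]

lemma toReal_pos {p : ℝ≥0∞} (hp : 1 ≤ p) (hp' : p ≠ ∞) : 1 ≤ p.toReal := by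
  rw [← ENNReal.toReal_one]
  exact ENNReal.toReal_mono hp' hp

/-- every entry is at most the norm -/
lemma le_norm_toLp {p : ℝ≥0∞} (hp : 1 ≤ p) {s : ι → ℝ} (hs : ∀ j, 0 ≤ s j) (j : ι) :
    s j ≤ ‖(WithLp.toLp p s : PiLp p (fun _ : ι => ℝ))‖ := by
  have : Fact (1 ≤ p) := ⟨hp⟩
  have := PiLp.norm_apply_le (p := p) (WithLp.toLp p s : PiLp p (fun _ : ι => ℝ)) j
  rwa [Real.norm_eq_abs, abs_of_nonneg (by exact hs j)] at this

lemma norm_toLp_nonneg {p : ℝ≥0∞} (hp : 1 ≤ p) (s : ι → ℝ) :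
    0 ≤ ‖(WithLp.toLp p s : PiLp p (fun _ : ι => ℝ))‖ := by
  have : Fact (1 ≤ p) := ⟨hp⟩
  exact norm_nonneg _

/-- the sum of the powers -/
lemma sum_rpow_eq {p : ℝ≥0∞} (hp : 1 ≤ p) (hp' : p ≠ ∞) {s : ι → ℝ} (hs : ∀ j, 0 ≤ s j) :
    ∑ j, s j ^ p.toReal = ‖(WithLp.toLp p s : PiLp p (fun _ : ι => ℝ))‖ ^ p.toReal := by
  have h1 := toReal_pos hp hp'
  have h2 : 0 ≤ ∑ j, s j ^ p.toReal := sum_nonneg fun j _ => Real.rpow_nonneg (hs j) _
  rw [norm_toLp_fin (by linarith) hs, ← Real.rpow_mul h2, one_div_mul_cancel (by linarith),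
    Real.rpow_one]

/-- the norms are decreasing in the exponent -/
lemma norm_toLp_anti {p q : ℝ≥0∞} (hp : 1 ≤ p) (hpq : p ≤ q) {s : ι → ℝ} (hs : ∀ j, 0 ≤ s j) :
    ‖(WithLp.toLp q s : PiLp q (fun _ : ι => ℝ))‖ ≤
      ‖(WithLp.toLp p s : PiLp p (fun _ : ι => ℝ))‖ := by
  set S := ‖(WithLp.toLp p s : PiLp p (fun _ : ι => ℝ))‖ with hS
  have hS0 : 0 ≤ S := norm_toLp_nonneg hp s
  have hle : ∀ j, s j ≤ S := fun j => le_norm_toLp hp hs j
  rcases eq_or_ne q ∞ with rfl | hq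
  · rw [norm_toLp_top hs]
    exact Real.iSup_le hle hS0
  · have hp' : p ≠ ∞ := ne_top_of_le_ne_top hq hpq
    have h1 := toReal_pos hp hp'
    have h2 : p.toReal ≤ q.toReal := ENNReal.toReal_mono hq hpq
    rw [norm_toLp_fin (by linarith) hs]
    have h3 : ∑ j, s j ^ q.toReal ≤ S ^ q.toReal := by
      calc ∑ j, s j ^ q.toReal ≤ ∑ j, s j ^ p.toReal * S ^ (q.toReal - p.toReal) := by
            apply sum_le_sum
            intro j _
            have e1 : s j ^ q.toReal = s j ^ p.toReal * s j ^ (q.toReal - p.toReal) := by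
              rcases eq_or_lt_of_le (hs j) with h4 | h4
              · rw [← h4, Real.zero_rpow (x := p.toReal) (by linarith), zero_mul,
                  Real.zero_rpow (by linarith)]
              · rw [← Real.rpow_add h4]
                congr 1
                ring
            rw [e1]
            exact mul_le_mul_of_nonneg_left (Real.rpow_le_rpow (hs j) (hle j) (by linarith))
              (Real.rpow_nonneg (hs j) _)
        _ = S ^ p.toReal * S ^ (q.toReal - p.toReal) := by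
            rw [← sum_mul, sum_rpow_eq hp hp' hs]
        _ = S ^ q.toReal := by
            rcases eq_or_lt_of_le hS0 with h4 | h4
            · rw [← h4, Real.zero_rpow (x := p.toReal) (by linarith), zero_mul,
                Real.zero_rpow (by linarith)]
            · rw [← Real.rpow_add h4]
              congr 1
              ring
    calc (∑ j, s j ^ q.toReal) ^ (1 / q.toReal) ≤ (S ^ q.toReal) ^ (1 / q.toReal) :=
          Real.rpow_le_rpow (sum_nonneg fun j _ => Real.rpow_nonneg (hs j) _) h3 (by positivity)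
      _ = S := by
          rw [← Real.rpow_mul hS0, mul_one_div_cancel (by linarith), Real.rpow_one]

end vec

section mat

variable {N : ℕ}

lemma sv_nonneg (A : Matrix (Fin N) (Fin N) ℝ) (j : Fin N) :
    0 ≤ (Matrix.toEuclideanLin A).singularValues j :=
  LinearMap.singularValues_nonneg _ _

lemma sNorm_nonneg {p : ℝ≥0∞} (hp : 1 ≤ p) (A : Matrix (Fin N) (Fin N) ℝ) : 0 ≤ sNorm p A :=
  norm_toLp_nonneg hp _

lemma sNorm_anti {p q : ℝ≥0∞} (hp : 1 ≤ p) (hpq : p ≤ q) (A : Matrix (Fin N) (Fin N) ℝ) :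
    sNorm q A ≤ sNorm p A := norm_toLp_anti hp hpq (sv_nonneg A)

lemma sv_le_sNorm {p : ℝ≥0∞} (hp : 1 ≤ p) (A : Matrix (Fin N) (Fin N) ℝ) (j : Fin N) :
    (Matrix.toEuclideanLin A).singularValues j ≤ sNorm p A := le_norm_toLp hp (sv_nonneg A) j

/-- the entries in an orthonormal pair of systems -/
theorem sum_inner_le_sNorm {κ : Type*} [Fintype κ] {p : ℝ≥0∞} (hp : 1 ≤ p) (hp' : p ≠ ∞)
    (A : Matrix (Fin N) (Fin N) ℝ) {x y : κ → EuclideanSpace ℝ (Fin N)} (hx : Orthonormal ℝ x)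
    (hy : Orthonormal ℝ y) :
    ∑ j, |inner ℝ (x j) (Matrix.toEuclideanLin A (y j))| ^ p.toReal ≤ sNorm p A ^ p.toReal := by
  obtain ⟨u, v, h⟩ := exists_svd (N := N) (by simp) (Matrix.toEuclideanLin A)
  have h1 := sum_inner_rpow_le u.orthonormal v.orthonormal (sv_nonneg A) (svd_apply h) hx hy
    (toReal_pos hp hp')
  rwa [sum_rpow_eq hp hp' (sv_nonneg A)] at h1

theorem inner_le_sNorm {p : ℝ≥0∞} (hp : 1 ≤ p) (A : Matrix (Fin N) (Fin N) ℝ)
    {x y : EuclideanSpace ℝ (Fin N)} (hx : ‖x‖ ≤ 1) (hy : ‖y‖ ≤ 1) :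
    |inner ℝ x (Matrix.toEuclideanLin A y)| ≤ sNorm p A := by
  obtain ⟨u, v, h⟩ := exists_svd (N := N) (by simp) (Matrix.toEuclideanLin A)
  exact abs_inner_le_sup u.orthonormal v.orthonormal (sv_nonneg A) (sv_le_sNorm hp A)
    (sNorm_nonneg hp A) (svd_apply h) hx hy

/-- the norm of a matrix given by an orthonormal expansion -/
theorem sNorm_le_of_expansion {κ : Type*} [Fintype κ] {p : ℝ≥0∞} (hp : 1 ≤ p)
    (A : Matrix (Fin N) (Fin N) ℝ) {a b : κ → EuclideanSpace ℝ (Fin N)} (ha : Orthonormal ℝ a)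
    (hb : Orthonormal ℝ b) {τ : κ → ℝ} (hτ : ∀ k, 0 ≤ τ k)
    (hA : ∀ x, Matrix.toEuclideanLin A x = ∑ k, (τ k * inner ℝ (b k) x) • a k) :
    sNorm p A ≤ ‖(WithLp.toLp p τ : PiLp p (fun _ : κ => ℝ))‖ := by
  obtain ⟨u, v, h⟩ := exists_svd (N := N) (by simp) (Matrix.toEuclideanLin A)
  have h1 : ∀ j : Fin N, |inner ℝ (u j) (Matrix.toEuclideanLin A (v j))| =
      (Matrix.toEuclideanLin A).singularValues j := by
    intro j
    rw [svd_inner h, abs_of_nonneg (sv_nonneg A j)]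
  rcases eq_or_ne p ∞ with rfl | hp'
  · unfold sNorm
    rw [norm_toLp_top (sv_nonneg A)]
    refine Real.iSup_le (fun j => ?_) (norm_toLp_nonneg hp τ)
    rw [← h1 j]
    exact abs_inner_le_sup ha hb hτ (fun k => le_norm_toLp hp hτ k) (norm_toLp_nonneg hp τ) hA
      (u.norm_eq_one j).le (v.norm_eq_one j).le
  · have h2 := sum_inner_rpow_le ha hb hτ hA u.orthonormal v.orthonormal (toReal_pos hp hp')
    simp only [h1] at h2
    unfold sNorm
    have h3 := toReal_pos hp hp'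
    rw [norm_toLp_fin (by linarith) (sv_nonneg A), norm_toLp_fin (by linarith) hτ]
    exact Real.rpow_le_rpow (sum_nonneg fun j _ => Real.rpow_nonneg (sv_nonneg A j) _) h2
      (by positivity)

end mat

end Pool.Schatten
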