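import Mathlib

/-!
# Singular systems and the basic inequality for Schatten norms
-/

set_option autoImplicit false
open Finset Module InnerProductSpace

namespace Pool.Schatten

set_option linter.unusedSectionVars false

variable {E F : Type*} [NormedAddCommGroup E] [InnerProductSpace ℝ E] [FiniteDimensional ℝ E]
  [NormedAddCommGroup F] [InnerProductSpace ℝ F] [FiniteDimensional ℝ F]

/-- singular systems -/
theorem exists_svd {N : ℕ} (hE : finrank ℝ E = N) (T : E →ₗ[ℝ] E) :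
    ∃ u v : OrthonormalBasis (Fin N) ℝ E, ∀ j : Fin N, T (v j) = T.singularValues j • u j := by
  set hT := T.isSymmetric_adjoint_comp_self
  set v := hT.eigenvectorBasis hE with hv
  have h1 : ∀ j : Fin N, (LinearMap.adjoint T) (T (v j)) = (T.singularValues j ^ 2) • v j := by
    intro j
    have h2 := hT.apply_eigenvectorBasis hE j
    rw [T.sq_singularValues_fin hE j]
    exact h2
  have h2 : ∀ i j : Fin N, inner ℝ (T (v i)) (T (v j)) = if i = j then T.singularValues i ^ 2 else 0 := by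
    intro i j
    rw [← LinearMap.adjoint_inner_right, h1 j, inner_smul_right, orthonormal_iff_ite.1 v.orthonormal]
    split_ifs with h
    · rw [h, mul_one]
    · rw [mul_zero]
  have h3 : ∀ j : Fin N, T.singularValues j = 0 → T (v j) = 0 := by
    intro j hj
    have := h2 j j
    rw [if_pos rfl, hj, zero_pow two_ne_zero, inner_self_eq_zero] at this
    exact this
  have h4 : Orthonormal ℝ (({j : Fin N | T.singularValues j ≠ 0}).domRestrict
      (fun j => (T.singularValues j)⁻¹ • T (v j))) := by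
    rw [orthonormal_iff_ite]
    rintro ⟨i, hi⟩ ⟨j, hj⟩
    simp only [Set.domRestrict_apply, inner_smul_left, inner_smul_right, h2, Subtype.mk.injEq]
    split_ifs with h
    · subst h
      have hi' : T.singularValues i ≠ 0 := hi
      simp only [conj_trivial]
      field_simp
    · simp
  obtain ⟨u, hu⟩ := h4.exists_orthonormalBasis_extension_of_card_eq (by simp [hE])
  refine ⟨u, v, fun j => ?_⟩
  by_cases hj : T.singularValues j = 0
  · rw [h3 j hj, hj, zero_smul]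
  · rw [hu j hj, smul_smul, mul_inv_cancel₀ hj, one_smul]

lemma svd_apply {N : ℕ} {T : E →ₗ[ℝ] E} {u v : OrthonormalBasis (Fin N) ℝ E}
    (h : ∀ j : Fin N, T (v j) = T.singularValues j • u j) (x : E) :
    T x = ∑ j : Fin N, (T.singularValues j * inner ℝ (v j) x) • u j := by
  conv_lhs => rw [← v.sum_repr' x]
  rw [map_sum]
  apply sum_congr rfl
  intro j _
  rw [map_smul, h, smul_smul, mul_comm]

lemma svd_inner {N : ℕ} {T : E →ₗ[ℝ] E} {u v : OrthonormalBasis (Fin N) ℝ E}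
    (h : ∀ j : Fin N, T (v j) = T.singularValues j • u j) (j : Fin N) :
    inner ℝ (u j) (T (v j)) = T.singularValues j := by
  rw [h, inner_smul_right, orthonormal_iff_ite.1 u.orthonormal, if_pos rfl, mul_one]

/-- Jensen with total weight at most one -/
lemma jensen_sub {ι : Type*} (s : Finset ι) (w z : ι → ℝ) (hw : ∀ i ∈ s, 0 ≤ w i)
    (hw1 : ∑ i ∈ s, w i ≤ 1) (hz : ∀ i ∈ s, 0 ≤ z i) {r : ℝ} (hr : 1 ≤ r) :
    (∑ i ∈ s, w i * z i) ^ r ≤ ∑ i ∈ s, w i * z i ^ r := by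
  have h0 : 0 ≤ ∑ i ∈ s, w i := sum_nonneg hw
  rcases eq_or_lt_of_le h0 with h1 | h1
  · have h2 : ∀ i ∈ s, w i = 0 := (sum_eq_zero_iff_of_nonneg hw).1 h1.symm
    rw [sum_eq_zero (fun i hi => by rw [h2 i hi, zero_mul]), Real.zero_rpow (by linarith)]
    exact sum_nonneg fun i hi => mul_nonneg (hw i hi) (Real.rpow_nonneg (hz i hi) _)
  · set W := ∑ i ∈ s, w i with hW
    have h3 := Real.rpow_arith_mean_le_arith_mean_rpow s (fun i => w i / W) z
      (fun i hi => div_nonneg (hw i hi) h1.le) (by rw [← sum_div]; exact div_self h1.ne') hz hr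
    have e1 : ∑ i ∈ s, w i * z i = W * ∑ i ∈ s, w i / W * z i := by
      rw [mul_sum]
      apply sum_congr rfl
      intro i _
      field_simp
    have e2 : ∑ i ∈ s, w i * z i ^ r = W * ∑ i ∈ s, w i / W * z i ^ r := by
      rw [mul_sum]
      apply sum_congr rfl
      intro i _
      field_simp
    have h4 : 0 ≤ ∑ i ∈ s, w i / W * z i :=
      sum_nonneg fun i hi => mul_nonneg (div_nonneg (hw i hi) h1.le) (hz i hi)
    rw [e1, e2, Real.mul_rpow h1.le h4]
    have h5 : W ^ r ≤ W := by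
      calc W ^ r ≤ W ^ (1 : ℝ) := Real.rpow_le_rpow_of_exponent_ge h1 hw1 hr
        _ = W := Real.rpow_one W
    have h6 : 0 ≤ (∑ i ∈ s, w i / W * z i) ^ r := Real.rpow_nonneg h4 _
    exact mul_le_mul h5 h3 h6 h1.le

section basic

variable {κ ι : Type*} [Fintype κ] [Fintype ι]

/-- the weights -/
lemma weights {a b : κ → E} (ha : Orthonormal ℝ a) (hb : Orthonormal ℝ b) {x y : E}
    (hx : ‖x‖ ≤ 1) (hy : ‖y‖ ≤ 1) :
    ∑ k, (inner ℝ (b k) y ^ 2 + inner ℝ (a k) x ^ 2) / 2 ≤ 1 := by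
  have h1 := hb.sum_inner_products_le (s := univ) y
  have h2 := ha.sum_inner_products_le (s := univ) x
  simp only [Real.norm_eq_abs, sq_abs] at h1 h2
  have h3 : ‖x‖ ^ 2 ≤ 1 := pow_le_one₀ (norm_nonneg _) hx
  have h4 : ‖y‖ ^ 2 ≤ 1 := pow_le_one₀ (norm_nonneg _) hy
  rw [← sum_div, sum_add_distrib]
  linarith

lemma abs_inner_le {a b : κ → E} {τ : κ → ℝ} (hτ : ∀ k, 0 ≤ τ k) {B : E → E}
    (hB : ∀ x, B x = ∑ k, (τ k * inner ℝ (b k) x) • a k) (x y : E) :
    |inner ℝ x (B y)| ≤ ∑ k, (inner ℝ (b k) y ^ 2 + inner ℝ (a k) x ^ 2) / 2 * τ k := by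
  rw [hB, inner_sum]
  refine (abs_sum_le_sum_abs _ _).trans (sum_le_sum fun k _ => ?_)
  rw [inner_smul_right, abs_mul, abs_mul, abs_of_nonneg (hτ k), real_inner_comm (a k) x]
  have h1 : |inner ℝ (b k) y| * |inner ℝ (a k) x| ≤
      (inner ℝ (b k) y ^ 2 + inner ℝ (a k) x ^ 2) / 2 := by
    have := two_mul_le_add_sq |inner ℝ (b k) y| |inner ℝ (a k) x|
    rw [sq_abs, sq_abs] at this
    linarith
  calc τ k * |inner ℝ (b k) y| * |inner ℝ (a k) x| =
      (|inner ℝ (b k) y| * |inner ℝ (a k) x|) * τ k := by ring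
    _ ≤ _ := mul_le_mul_of_nonneg_right h1 (hτ k)

/-- **the basic inequality** -/
theorem sum_inner_rpow_le {a b : κ → E} (ha : Orthonormal ℝ a) (hb : Orthonormal ℝ b)
    {τ : κ → ℝ} (hτ : ∀ k, 0 ≤ τ k) {B : E → E}
    (hB : ∀ x, B x = ∑ k, (τ k * inner ℝ (b k) x) • a k) {x y : ι → E}
    (hx : Orthonormal ℝ x) (hy : Orthonormal ℝ y) {r : ℝ} (hr : 1 ≤ r) :
    ∑ j, |inner ℝ (x j) (B (y j))| ^ r ≤ ∑ k, τ k ^ r := by
  have h1 : ∀ j, |inner ℝ (x j) (B (y j))| ^ r ≤
      ∑ k, (inner ℝ (b k) (y j) ^ 2 + inner ℝ (a k) (x j) ^ 2) / 2 * τ k ^ r := by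
    intro j
    refine (Real.rpow_le_rpow (abs_nonneg _) (abs_inner_le hτ hB _ _) (by linarith)).trans ?_
    apply jensen_sub
    · intro k _
      positivity
    · exact weights ha hb (hx.norm_eq_one j).le (hy.norm_eq_one j).le
    · intro k _
      exact hτ k
    · exact hr
  refine (sum_le_sum fun j _ => h1 j).trans ?_
  rw [sum_comm]
  apply sum_le_sum
  intro k _
  rw [← sum_mul]
  have h2 : ∑ j, (inner ℝ (b k) (y j) ^ 2 + inner ℝ (a k) (x j) ^ 2) / 2 ≤ 1 := by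
    have := weights (a := x) (b := y) hx hy (x := a k) (y := b k) (ha.norm_eq_one k).le
      (hb.norm_eq_one k).le
    refine le_trans (le_of_eq ?_) this
    apply sum_congr rfl
    intro j _
    rw [real_inner_comm, real_inner_comm (x j)]
  calc (∑ j, (inner ℝ (b k) (y j) ^ 2 + inner ℝ (a k) (x j) ^ 2) / 2) * τ k ^ r
      ≤ 1 * τ k ^ r := mul_le_mul_of_nonneg_right h2 (Real.rpow_nonneg (hτ k) _)
    _ = τ k ^ r := one_mul _

/-- the basic inequality, supremum version -/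
theorem abs_inner_le_sup {a b : κ → E} (ha : Orthonormal ℝ a) (hb : Orthonormal ℝ b)
    {τ : κ → ℝ} (hτ : ∀ k, 0 ≤ τ k) {M : ℝ} (hM : ∀ k, τ k ≤ M) (hM0 : 0 ≤ M) {B : E → E}
    (hB : ∀ x, B x = ∑ k, (τ k * inner ℝ (b k) x) • a k) {x y : E} (hx : ‖x‖ ≤ 1)
    (hy : ‖y‖ ≤ 1) : |inner ℝ x (B y)| ≤ M := by
  refine (abs_inner_le hτ hB x y).trans ?_
  calc ∑ k, (inner ℝ (b k) y ^ 2 + inner ℝ (a k) x ^ 2) / 2 * τ k
      ≤ ∑ k, (inner ℝ (b k) y ^ 2 + inner ℝ (a k) x ^ 2) / 2 * M :=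
        sum_le_sum fun k _ => mul_le_mul_of_nonneg_left (hM k) (by positivity)
    _ = (∑ k, (inner ℝ (b k) y ^ 2 + inner ℝ (a k) x ^ 2) / 2) * M := by rw [sum_mul]
    _ ≤ 1 * M := mul_le_mul_of_nonneg_right (weights ha hb hx hy) hM0
    _ = M := one_mul M

end basic

end Pool.Schatten
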