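import Pool.Agent.Work.MP_9a3a53_an.Low

/-!
# Every large subspace contains a matrix concentrated at one entry
-/

set_option autoImplicit false
set_option linter.unusedSectionVars false
open Finset Module InnerProductSpace
open scoped ENNReal

namespace Pool.Schatten

variable {N : ℕ}

/-- matrices as vectors -/
noncomputable def vecEquiv (N : ℕ) :
    Matrix (Fin N) (Fin N) ℝ ≃ₗ[ℝ] EuclideanSpace ℝ (Fin N × Fin N) :=
  (LinearEquiv.curry ℝ ℝ (Fin N) (Fin N)).symm.trans
    (WithLp.linearEquiv 2 ℝ (Fin N × Fin N → ℝ)).symm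

lemma vecEquiv_apply (A : Matrix (Fin N) (Fin N) ℝ) (x : Fin N × Fin N) :
    vecEquiv N A x = A x.1 x.2 := rfl

theorem exists_spread (hN : 0 < N) (F : Submodule ℝ (Matrix (Fin N) (Fin N) ℝ)) :
    ∃ A ∈ F, ∃ i j, (finrank ℝ F : ℝ) / (N : ℝ) ^ 2 ≤ A i j ∧
      ∑ i', ∑ j', A i' j' ^ 2 = A i j := by
  have : Nonempty (Fin N) := ⟨⟨0, hN⟩⟩
  set F' := F.map (vecEquiv N).toLinearMap with hF'
  have hk : finrank ℝ F' = finrank ℝ F := LinearEquiv.finrank_map_eq _ _
  set b := stdOrthonormalBasis ℝ F' with hb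
  set w : Fin N × Fin N → ℝ := fun y => ∑ a, ((b a : EuclideanSpace ℝ (Fin N × Fin N)) y) ^ 2
    with hw
  have h1 : ∑ y, w y = finrank ℝ F := by
    rw [hw, sum_comm]
    have : ∀ a, ∑ y, ((b a : EuclideanSpace ℝ (Fin N × Fin N)) y) ^ 2 = 1 := by
      intro a
      have h2 := EuclideanSpace.norm_sq_eq (b a : EuclideanSpace ℝ (Fin N × Fin N))
      have h3 : ‖(b a : EuclideanSpace ℝ (Fin N × Fin N))‖ = 1 := by
        rw [Submodule.norm_coe]
        exact b.norm_eq_one a
      rw [h3, one_pow] at h2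
      rw [h2]
      apply sum_congr rfl
      intro y _
      rw [Real.norm_eq_abs, sq_abs]
    rw [sum_congr rfl fun a _ => this a]
    simp [hk]
  have h2 : ∑ _y : Fin N × Fin N, (finrank ℝ F : ℝ) / (N : ℝ) ^ 2 ≤ ∑ y, w y := by
    rw [h1, sum_const, card_univ, Fintype.card_prod, Fintype.card_fin, nsmul_eq_mul]
    have hN' : (N : ℝ) ≠ 0 := by positivity
    push_cast
    apply le_of_eq
    field_simp
  obtain ⟨y, _, hy⟩ := exists_le_of_sum_le univ_nonempty h2
  set c : Fin (finrank ℝ F') → ℝ := fun a => (b a : EuclideanSpace ℝ (Fin N × Fin N)) y with hc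
  set x : F' := ∑ a, c a • b a with hx
  have h3 : inner ℝ x x = w y := by
    rw [hx, b.orthonormal.inner_sum]
    rw [hw]
    apply sum_congr rfl
    intro a _
    simp [hc, sq]
  have h4 : (x : EuclideanSpace ℝ (Fin N × Fin N)) y = w y := by
    rw [hx, Submodule.coe_sum, WithLp.ofLp_sum, Finset.sum_apply, hw]
    apply sum_congr rfl
    intro a _
    simp [hc, sq]
  obtain ⟨A, hA, hAx⟩ : ∃ A ∈ F, vecEquiv N A = (x : EuclideanSpace ℝ (Fin N × Fin N)) :=
    Submodule.mem_map.1 (show (x : EuclideanSpace ℝ (Fin N × Fin N)) ∈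
      F.map (vecEquiv N).toLinearMap from x.2)
  refine ⟨A, hA, y.1, y.2, ?_, ?_⟩
  · rw [← vecEquiv_apply A y, hAx, h4]
    exact hy
  · rw [← vecEquiv_apply A y, hAx, h4, ← h3, ← Fintype.sum_prod_type']
    rw [Submodule.coe_inner, PiLp.inner_apply]
    apply sum_congr rfl
    intro z _
    rw [← hAx, vecEquiv_apply]
    simp [sq]

end Pool.Schatten
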