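import Pool.Agent.Work.MP_9a3a53_an.Block

/-!
# Power upper bound for the approximation numbers of Schatten embeddings in every codimension
-/

set_option autoImplicit false
open Finset Module
open scoped ENNReal

namespace Pool.Agent.Work.MP_9a3a53_an.UpperPower

open Pool.Schatten

/-- the block sizes -/
lemma exists_sizes {N k : ℕ} (hk : 1 ≤ k) (hkN : k ≤ N ^ 2) :
    ∃ m l : ℕ, 0 < m ∧ m * l ≤ N ∧ k ≤ l ^ 2 ∧ N ^ 2 ≤ 8 * k * m ^ 2 := by
  set s := Nat.sqrt (k - 1) with hs
  have h1 : k - 1 < (s + 1) * (s + 1) := Nat.lt_succ_sqrt (k - 1)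
  have h2 : s * s ≤ k - 1 := Nat.sqrt_le (k - 1)
  have h3 : s < N := by
    rw [hs, Nat.sqrt_lt]
    have : N ^ 2 = N * N := sq N
    omega
  have hm : 0 < N / (s + 1) := Nat.div_pos (by omega) (by omega)
  refine ⟨N / (s + 1), N / (N / (s + 1)), hm, Nat.mul_div_le _ _, ?_, ?_⟩
  · have h4 : s + 1 ≤ N / (N / (s + 1)) := by
      rw [Nat.le_div_iff_mul_le hm]
      exact Nat.mul_div_le _ _
    calc k ≤ (s + 1) * (s + 1) := by omega
      _ ≤ (N / (N / (s + 1))) ^ 2 := by
        rw [sq]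
        exact Nat.mul_le_mul h4 h4
  · set m := N / (s + 1) with hmdef
    have h5 : N ≤ 2 * ((s + 1) * m) := by
      have h6 := Nat.div_add_mod N (s + 1)
      have h7 := Nat.mod_lt N (show 0 < s + 1 by omega)
      have h8 : s + 1 ≤ (s + 1) * m := Nat.le_mul_of_pos_right _ hm
      rw [← hmdef] at h6
      omega
    have h9 : (s + 1) * (s + 1) ≤ 2 * k := by
      have h10 : (2 * s : ℤ) ≤ s * s + 1 := by nlinarith [sq_nonneg ((s : ℤ) - 1)]
      have h11 : 2 * s ≤ s * s + 1 := by exact_mod_cast h10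
      have e : (s + 1) * (s + 1) = s * s + 2 * s + 1 := by ring
      omega
    calc N ^ 2 ≤ (2 * ((s + 1) * m)) ^ 2 := Nat.pow_le_pow_left h5 2
      _ = 4 * ((s + 1) * (s + 1)) * m ^ 2 := by ring
      _ ≤ 4 * (2 * k) * m ^ 2 := Nat.mul_le_mul_right _ (Nat.mul_le_mul_left _ h9)
      _ = 8 * k * m ^ 2 := by ring

/-- For `1 ≤ p ≤ q ≤ ∞` and all `N ≥ 1`, `1 ≤ n ≤ N ^ 2`:
`c_n (S_p^N → S_q^N) ≤ a_n (S_p^N → S_q^N) ≤ (8 (N ^ 2 - n + 1) / N ^ 2) ^ ((1 / p - 1 / q) / 2)`. -/
theorem result (p q : ℝ≥0∞) (hp : 1 ≤ p) (hpq : p ≤ q) (N n : ℕ) (hN : 1 ≤ N) (hn : 1 ≤ n)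
    (hnN : n ≤ N ^ 2) :
    gelfandNumber p q N n ≤ approxNumber p q N n ∧
      approxNumber p q N n ≤
        (8 * (((N : ℝ) ^ 2 - n + 1) / (N : ℝ) ^ 2)) ^ ((p.toReal⁻¹ - q.toReal⁻¹) / 2) := by
  have hq : 1 ≤ q := hp.trans hpq
  have hfr : finrank ℝ (Matrix (Fin N) (Fin N) ℝ) = N ^ 2 := by
    simp only [finrank_matrix, Fintype.card_fin, finrank_self, mul_one]
    ring
  refine ⟨?_, ?_⟩
  · apply le_csInf
    · refine ⟨1, zero_le_one, 0, ?_, ?_⟩
      · rw [LinearMap.range_zero, finrank_bot]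
        omega
      · intro A
        rw [LinearMap.zero_apply, sub_zero, one_mul]
        exact sNorm_anti hp hpq A
    · rintro r ⟨hr0, T, hT, hr⟩
      refine csInf_le ⟨0, fun x hx => hx.1⟩ ⟨hr0, LinearMap.ker T, ?_, ?_⟩
      · have := T.finrank_range_add_finrank_ker
        rw [hfr] at this
        omega
      · intro A hA
        have h1 := hr A
        rw [LinearMap.mem_ker.1 hA, sub_zero] at h1
        exact h1
  · set k : ℕ := N ^ 2 - n + 1 with hk
    obtain ⟨m, l, hm, hml, hkl, hNm⟩ := exists_sizes (N := N) (k := k) (by omega) (by omega)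
    set e : Fin m × Fin l → Fin N := fun x => Fin.castLE hml (finProdFinEquiv x) with he
    have hinj : Function.Injective e := (Fin.castLE_injective hml).comp finProdFinEquiv.injective
    have hm' : (0 : ℝ) < m := by exact_mod_cast hm
    have hN' : (0 : ℝ) < N := by exact_mod_cast hN
    set t : ℝ := p.toReal⁻¹ - q.toReal⁻¹ with ht
    have ht0 : 0 ≤ t := by
      rcases eq_or_ne q ∞ with rfl | hq'
      · simp [ht]
      · have hp' : p ≠ ∞ := ne_top_of_le_ne_top hq' hpq
        have h1 : p.toReal ≤ q.toReal := ENNReal.toReal_mono hq' hpq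
        have h2 : 1 ≤ p.toReal := toReal_pos hp hp'
        have := inv_anti₀ (by linarith) h1
        linarith
    have hbound : (m : ℝ) ^ (-t) ≤
        (8 * (((N : ℝ) ^ 2 - n + 1) / (N : ℝ) ^ 2)) ^ (t / 2) := by
      have h1 : ((N : ℝ) ^ 2 - n + 1) = (k : ℝ) := by
        rw [hk]
        push_cast [Nat.cast_sub hnN]
        ring
      have h2 : ((m : ℝ) ^ 2)⁻¹ ≤ 8 * (((N : ℝ) ^ 2 - n + 1) / (N : ℝ) ^ 2) := by
        rw [h1]
        have h3 : (N : ℝ) ^ 2 ≤ 8 * k * (m : ℝ) ^ 2 := by exact_mod_cast hNm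
        rw [← mul_div_assoc, le_div_iff₀ (by positivity), inv_mul_le_iff₀ (by positivity)]
        linarith
      have h4 : (m : ℝ) ^ (-t) = (((m : ℝ) ^ 2)⁻¹) ^ (t / 2) := by
        rw [← Real.rpow_natCast, ← Real.rpow_neg hm'.le, ← Real.rpow_mul hm'.le]
        congr 1
        push_cast
        ring
      rw [h4]
      exact Real.rpow_le_rpow (by positivity) h2 (by linarith)
    refine le_trans (csInf_le ⟨0, fun x hx => hx.1⟩ ⟨by positivity, LinearMap.id -
      (up e).comp (down e), ?_, ?_⟩) hbound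
    · -- the rank
      have hsurj : Function.Surjective (down e) := fun y => ⟨up e y, down_up hinj hm y⟩
      have h1 : LinearMap.range (LinearMap.id - (up e).comp (down e)) ≤
          LinearMap.ker (down e) := by
        rintro _ ⟨A, rfl⟩
        rw [LinearMap.mem_ker, LinearMap.sub_apply, map_sub, LinearMap.comp_apply,
          down_up hinj hm, LinearMap.id_apply, sub_self]
      have h2 := Submodule.finrank_mono h1
      have h3 := (down e).finrank_range_add_finrank_ker
      rw [LinearMap.range_eq_top.2 hsurj, finrank_top, hfr] at h3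
      have h4 : finrank ℝ (Matrix (Fin l) (Fin l) ℝ) = l ^ 2 := by
        simp only [finrank_matrix, Fintype.card_fin, finrank_self, mul_one]
        ring
      rw [h4] at h3
      omega
    · intro A
      rw [LinearMap.sub_apply, LinearMap.id_apply, sub_sub_cancel, LinearMap.comp_apply]
      have h1 := sNorm_up_le hinj hm hq (down e A)
      have h2 := sNorm_anti hp hpq (down e A)
      have h3 := sNorm_down_le hinj hm hp A
      have h4 : (m : ℝ) ^ (-t) = (m : ℝ) ^ q.toReal⁻¹ * (m : ℝ) ^ (-p.toReal⁻¹) := by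
        rw [← Real.rpow_add hm']
        congr 1
        rw [ht]
        ring
      rw [h4, mul_assoc]
      refine h1.trans (mul_le_mul_of_nonneg_left (h2.trans h3) (by positivity))

end Pool.Agent.Work.MP_9a3a53_an.UpperPower
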